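import Pool.Agent.Q112.KT.Almost

/-!
MP_b47bfb_co: Hadwiger's conjecture for almost all Cayley graphs of every large finite group.

Bollobás, Catlin and Erdős (1980) proved Hadwiger's conjecture for almost all graphs.  Here this is
done for Cayley graphs: for every `K` and every `ε > 0`, every finite group `Γ` of large order has
the property that for all but the proportion `ε` of its connection sets `S` (the sets
`S = S⁻¹` without `1`) the Cayley graph has a clique minor of order at least `K` times its chromatic
number.

Proof.  (1) A graph on `n` vertices with minimum degree at least `δ n` has a clique minor of order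
`c n / √(log n)` (Kostochka, Thomason); this is proved in `Q112/KT/Dense.lean`.  (2) With high
probability every set of at most `k = log₄ n` vertices has a common non-neighbour: for a set `X` of
`k` vertices there are `n / (4 k²)` vertices `v` for which the sets of quotients
`v⁻¹ x, x⁻¹ v` (`x ∈ X`) are disjoint.  So there is an independent set `I` of `k` vertices.
(3) By averaging over the automorphisms the graph has a colouring with about
`(n / k) (1 + log k)` colours, most classes of which lie in translates of `I`.
-/

set_option autoImplicit false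

namespace Pool.Agent.Results.MP_b47bfb_co.AlmostAllCayley

open Pool.Agent.Q112.KT

/-- `K_k` is a minor of `G`: there are `k` pairwise disjoint vertex sets, each inducing a connected
subgraph, any two of them joined by an edge of `G`. -/
def HasCliqueMinor {V : Type} (G : SimpleGraph V) (k : ℕ) : Prop :=
  ∃ f : Fin k → Set V,
    (∀ i, (G.induce (f i)).Connected) ∧
    (∀ i j, i ≠ j → Disjoint (f i) (f j)) ∧
    (∀ i j, i ≠ j → ∃ u ∈ f i, ∃ v ∈ f j, G.Adj u v)

/-- `S` is the connection set of a Cayley graph: it does not contain `1` and is closed under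
inverses. (Distinct connection sets give distinct Cayley graphs `SimpleGraph.mulCayley S`, in which
`x` and `y` are adjacent if and only if `x⁻¹ * y ∈ S`.) -/
def IsConnectionSet {Γ : Type} [Group Γ] (S : Set Γ) : Prop :=
  (1 : Γ) ∉ S ∧ ∀ g ∈ S, g⁻¹ ∈ S

theorem ncard_eq {Γ : Type} [Fintype Γ] (P : Set Γ → Prop) (𝓑 : Finset (Finset Γ))
    (h : ∀ S : Finset Γ, S ∈ 𝓑 ↔ P (S : Set Γ)) : {S : Set Γ | P S}.ncard = 𝓑.card := by
  classical
  have h1 : {S : Set Γ | P S} = (fun S : Finset Γ => (S : Set Γ)) '' (𝓑 : Set (Finset Γ)) := by
    ext S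
    constructor
    · intro hS
      refine ⟨S.toFinset, ?_, by simp⟩
      rw [Finset.mem_coe, h]
      simpa using hS
    · rintro ⟨T, hT, rfl⟩
      exact (h T).1 hT
  rw [h1, Set.ncard_image_of_injective _ Finset.coe_injective, Set.ncard_coe_finset]

/-- For every `K` and every `ε > 0` there is `n₀` such that for every finite group `Γ` with at least
`n₀` elements the following holds for all but at most the proportion `ε` of all connection sets
`S` of `Γ`: for every `k`, if the Cayley graph of `Γ` and `S` is not `k`-colourable, then
`K_{K (k + 1)}` is a minor of it.  For `K = 1` this is Hadwiger's conjecture, and in general it says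
that there is a clique minor of order at least `K` times the chromatic number. -/
theorem result (K : ℕ) (ε : ℝ) (hε : 0 < ε) :
    ∃ n₀ : ℕ, ∀ (Γ : Type) [Group Γ] [Fintype Γ], n₀ ≤ Fintype.card Γ →
      ({S : Set Γ | IsConnectionSet S ∧
          ∃ k : ℕ, ¬ (SimpleGraph.mulCayley S).Colorable k ∧
            ¬ HasCliqueMinor (SimpleGraph.mulCayley S) (K * (k + 1))}.ncard : ℝ) ≤
        ε * ({S : Set Γ | IsConnectionSet S}.ncard : ℝ) := by
  classical
  obtain ⟨n0, h0⟩ := almost_all K ε hε
  refine ⟨n0, ?_⟩
  intro Γ _ _ hn
  have hsym : ∀ S : Finset Γ, IsSym S ↔ IsConnectionSet (S : Set Γ) := by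
    intro S
    unfold IsSym IsConnectionSet
    simp only [Finset.mem_coe]
  set 𝓑 : Finset (Finset Γ) := Finset.univ.filter (fun S => IsConnectionSet (S : Set Γ) ∧
          ∃ k : ℕ, ¬ (SimpleGraph.mulCayley (S : Set Γ)).Colorable k ∧
            ¬ HasCliqueMinor (SimpleGraph.mulCayley (S : Set Γ)) (K * (k + 1))) with h𝓑
  have h1 := h0 Γ hn 𝓑 (by
    intro S
    rw [h𝓑, Finset.mem_filter, mem_symSets, hsym]
    constructor
    · rintro ⟨_, hS, k, hk1, hk2⟩
      exact ⟨hS, fun h => hk2 (h k hk1)⟩
    · rintro ⟨hS, h⟩
      push Not at h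
      obtain ⟨k, hk1, hk2⟩ := h
      exact ⟨Finset.mem_univ _, hS, k, hk1, hk2⟩)
  rw [ncard_eq (fun S : Set Γ => IsConnectionSet S ∧
          ∃ k : ℕ, ¬ (SimpleGraph.mulCayley S).Colorable k ∧
            ¬ HasCliqueMinor (SimpleGraph.mulCayley S) (K * (k + 1))) 𝓑 (by
      intro S
      rw [h𝓑, Finset.mem_filter]
      simp only [Finset.mem_univ, true_and]),
    ncard_eq (fun S : Set Γ => IsConnectionSet S) (symSets Γ) (by
      intro S
      rw [mem_symSets, hsym])]
  exact h1

end Pool.Agent.Results.MP_b47bfb_co.AlmostAllCayley
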