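import Pool.Agent.Q112.KT.VT

/-!
MP_b47bfb_co: Hadwiger's conjecture, even with any constant factor, holds for a dense
vertex-transitive graph or for its complement.
-/

set_option autoImplicit false

namespace Pool.Agent.Results.MP_b47bfb_co.GraphOrComplement

open Pool.Agent.Q112.KT

/-- `K_k` is a minor of `G`: there are `k` pairwise disjoint vertex sets, each inducing a connected
subgraph, any two of them joined by an edge of `G`. -/
def HasCliqueMinor {V : Type} (G : SimpleGraph V) (k : ℕ) : Prop :=
  ∃ f : Fin k → Set V,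
    (∀ i, (G.induce (f i)).Connected) ∧
    (∀ i j, i ≠ j → Disjoint (f i) (f j)) ∧
    (∀ i j, i ≠ j → ∃ u ∈ f i, ∃ v ∈ f j, G.Adj u v)

/-- Hadwiger's conjecture with a factor `K`: if `G` is not `k`-colourable, then `K_{K (k + 1)}` is a
minor of `G`; so `G` has a clique minor of order at least `K` times its chromatic number.  For
`K = 1` this is Hadwiger's conjecture for `G`. -/
def Hadwiger {V : Type} (K : ℕ) (G : SimpleGraph V) : Prop :=
  ∀ k : ℕ, ¬ G.Colorable k → HasCliqueMinor G (K * (k + 1))

/-- Every vertex of `G` has at most `D` non-neighbours, counting the vertex itself. -/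
def NonNbrsLe {V : Type} (G : SimpleGraph V) (D : ℕ) : Prop :=
  ∀ x : V, {y | ¬ G.Adj x y}.ncard ≤ D

/-- `G` is vertex-transitive. -/
def IsTransitive {V : Type} (G : SimpleGraph V) : Prop :=
  ∀ x y : V, ∃ φ : G ≃g G, φ x = y

theorem dg_of_ncard {V : Type} [Fintype V] (G : SimpleGraph V) (x : V) :
    dg G Finset.univ x + {y | ¬ G.Adj x y}.ncard = Fintype.card V := by
  classical
  have h := dg_add_non G Finset.univ x
  rw [Finset.card_univ] at h
  rw [← h]
  congr 1
  rw [← Set.ncard_coe_finset]
  congr 1
  ext y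
  simp

theorem deg_le {V : Type} [Fintype V] (G : SimpleGraph V) (D : ℕ) (h : NonNbrsLe G D) :
    ∀ v, Fintype.card V ≤ dg G Finset.univ v + D := by
  intro v
  have h1 := dg_of_ncard G v
  have h2 := h v
  omega

theorem D_pos {V : Type} [Fintype V] [Nonempty V] (G : SimpleGraph V) (D : ℕ)
    (h : NonNbrsLe G D) : 1 ≤ D := by
  obtain ⟨x⟩ := ‹Nonempty V›
  refine le_trans ?_ (h x)
  rw [Nat.one_le_iff_ne_zero]
  intro h0
  rw [Set.ncard_eq_zero (Set.toFinite _)] at h0
  have : x ∈ {y | ¬ G.Adj x y} := G.loopless.irrefl x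
  rw [h0] at this
  exact this

/-- For every `δ > 0` and every `K` there is `n₀` such that for every vertex-transitive graph with
`n ≥ n₀` vertices and degree at least `δ n` and at most `(1 - δ) n`, Hadwiger's conjecture with a
factor `K` holds for `G` or for the complement of `G`. -/
theorem result (δ : ℝ) (hδ : 0 < δ) (K : ℕ) :
    ∃ n₀ : ℕ, ∀ (V : Type) [Fintype V] (G : SimpleGraph V), n₀ ≤ Fintype.card V →
      IsTransitive G →
      (∀ x : V, δ * Fintype.card V ≤ ({y | G.Adj x y}.ncard : ℝ) ∧
        ({y | G.Adj x y}.ncard : ℝ) ≤ (1 - δ) * Fintype.card V) →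
      Hadwiger K G ∨ Hadwiger K Gᶜ := by
  classical
  · obtain ⟨n0, h⟩ := vt_log (δ / 2) (by positivity) K
    refine ⟨max (max n0 2) ⌈2 / δ⌉₊, ?_⟩
    intro V _ G hn htr hdeg
    have hn0 : n0 ≤ Fintype.card V := (le_max_left _ _).trans ((le_max_left _ _).trans hn)
    have hn2 : 2 ≤ Fintype.card V := (le_max_right _ _).trans ((le_max_left _ _).trans hn)
    have hn3 : 2 / δ ≤ (Fintype.card V : ℝ) :=
      (Nat.le_ceil _).trans (by exact_mod_cast (le_max_right _ _).trans hn)
    rw [div_le_iff₀ hδ] at hn3
    have hne : Nonempty V := Fintype.card_pos_iff.1 (by omega)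
    obtain ⟨x0⟩ := hne
    set n : ℕ := Fintype.card V with hnd
    have hnpos : (0 : ℝ) < n := by
      have : (2 : ℝ) ≤ n := by exact_mod_cast hn2
      linarith
    -- the degree is constant
    set d : ℕ := dg G Finset.univ x0 with hd
    have hdgn : ∀ x : V, dg G Finset.univ x = {y | G.Adj x y}.ncard := by
      intro x
      unfold dg
      rw [← Set.ncard_coe_finset]
      congr 1
      ext y
      simp
    have hconst : ∀ x, {y | G.Adj x y}.ncard = d := by
      intro x
      obtain ⟨φ, hφ⟩ := htr x0 x
      rw [hd, hdgn x0]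
      have himg : {y | G.Adj x y} = (φ : V → V) '' {y | G.Adj x0 y} := by
        ext y
        constructor
        · intro hy
          refine ⟨φ.symm y, ?_, φ.apply_symm_apply y⟩
          show G.Adj x0 (φ.symm y)
          rw [← φ.map_adj_iff, hφ, φ.apply_symm_apply]
          exact hy
        · rintro ⟨z, hz, rfl⟩
          show G.Adj x (φ z)
          rw [← hφ]
          exact φ.map_adj_iff.2 hz
      rw [himg, Set.ncard_image_of_injective _ φ.injective]
    have hd1 := (hdeg x0).1
    have hd2 := (hdeg x0).2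
    rw [hconst x0] at hd1 hd2
    have hnc : ∀ x, {y | ¬ G.Adj x y}.ncard = n - d := by
      intro x
      have h1 := dg_of_ncard G x
      rw [hdgn, hconst] at h1
      omega
    have hdn : d ≤ n := by
      have h1 := dg_of_ncard G x0
      omega
    have hj := Nat.pow_log_le_self 4 (by omega : n ≠ 0)
    have hU : 2 ^ (Nat.log 4 n + Nat.log 4 n) ≤ (Finset.univ : Finset V).card := by
      rw [Finset.card_univ, ← hnd]
      have e : 2 ^ (Nat.log 4 n + Nat.log 4 n) = 4 ^ Nat.log 4 n := by
        rw [← two_mul, pow_mul]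
        norm_num
      rw [e]
      exact hj
    rcases ramsey G (Nat.log 4 n) (Nat.log 4 n) Finset.univ hU with ⟨T, _, hT2, hT3⟩ |
      ⟨T, _, hT2, hT3⟩
    · right
      have hcompl : ∀ x, {y | ¬ Gᶜ.Adj x y}.ncard ≤ d + 1 := by
        intro x
        have hsub : {y | ¬ Gᶜ.Adj x y} ⊆ insert x {y | G.Adj x y} := by
          intro y hy
          rw [Set.mem_setOf_eq, SimpleGraph.compl_adj, not_and_or, not_not, not_not] at hy
          rcases hy with rfl | hy
          · exact Set.mem_insert _ _
          · exact Set.mem_insert_of_mem _ hy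
        refine (Set.ncard_le_ncard hsub (Set.toFinite _)).trans ?_
        refine (Set.ncard_insert_le _ _).trans ?_
        rw [hconst]
      refine h V Gᶜ hn0 (d + 1) (by omega) ?_ (deg_le Gᶜ (d + 1) hcompl)
        (compl_trans G htr) T ?_ hT2
      · push_cast
        linarith
      · intro x hx y hy hxy
        rw [SimpleGraph.compl_adj] at hxy
        exact hxy.2 (hT3 x hx y hy hxy.1)
    · left
      have hDle : NonNbrsLe G (n - d) := fun x => (hnc x).le
      have hcast : ((n - d : ℕ) : ℝ) = (n : ℝ) - d := by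
        rw [Nat.cast_sub hdn]
      refine h V G hn0 (n - d) ?_ ?_ (deg_le G (n - d) hDle) htr T hT3 hT2
      · haveI : Nonempty V := ⟨x0⟩
        exact D_pos G _ hDle
      · rw [hcast]
        linarith

end Pool.Agent.Results.MP_b47bfb_co.GraphOrComplement
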