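import Pool.Agent.Q112.KT.Pseudo2
import Pool.Agent.Q112.KT.Mult

/-!
MP_b47bfb_co: Hadwiger's conjecture for pseudo-random graphs, in particular for regular graphs whose
eigenvalues have large multiplicities, for strongly regular graphs, and for all Cayley graphs of
groups without small nontrivial representations.

Proof.  Let `G` be `d`-regular on `n` vertices, let its second eigenvalue be at most `n ^ (1 - c)`,
and let `L = log n / log (n / (n - d))`.  (1) Every set of at least `n ^ (1 - c / 4)` vertices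
contains an independent set of size `c L / 8` (choose vertices one after the other, each with
about the average number of neighbours in the set of common non-neighbours of the previous ones).
So `G` has a colouring with `O(n / L)` colours.  (2) If `d ≥ n / 2`, then `G` has a clique minor of
order at least `c' n / √L` (`Q112/KT/VeryDense.lean`), and if `d ≤ n / 2` it has one of order at
least `c' d / √(log d)` by the theorem of Kostochka and Thomason, which is proved in
`Q112/KT/General.lean`.  In both cases this is more than the number of colours by any constant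
factor.  (3) If all eigenvalues but `d` have multiplicity at least `m`, then their squares are at
most `n d / m`, because the sum of all squares is `n d`.  (4) For strongly regular graphs the
absolute bound gives `m ≥ √n - 1`.
-/

set_option autoImplicit false

namespace Pool.Agent.Results.MP_b47bfb_co.PseudoRandomGraphs

open Pool.Agent.Q112.KT

/-- `K_k` is a minor of `G`: there are `k` pairwise disjoint vertex sets, each inducing a connected
subgraph, any two of them joined by an edge of `G`. -/
def HasCliqueMinor {V : Type} (G : SimpleGraph V) (k : ℕ) : Prop :=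
  ∃ f : Fin k → Set V,
    (∀ i, (G.induce (f i)).Connected) ∧
    (∀ i j, i ≠ j → Disjoint (f i) (f j)) ∧
    (∀ i j, i ≠ j → ∃ u ∈ f i, ∃ v ∈ f j, G.Adj u v)

/-- Hadwiger's conjecture with a factor `K`: if `G` is not `k`-colourable, then `K_{K (k + 1)}` is a
minor of `G`; so `G` has a clique minor of order at least `K` times its chromatic number.  For
`K = 1` this is Hadwiger's conjecture for `G`. -/
def Hadwiger {V : Type} (K : ℕ) (G : SimpleGraph V) : Prop :=
  ∀ k : ℕ, ¬ G.Colorable k → HasCliqueMinor G (K * (k + 1))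

/-- Every vertex of `G` has `d` neighbours. -/
def IsRegular {V : Type} (G : SimpleGraph V) (d : ℕ) : Prop :=
  ∀ x : V, {y | G.Adj x y}.ncard = d

open Classical in
/-- The adjacency matrix of `G`. -/
noncomputable def adjacency {V : Type} (G : SimpleGraph V) : Matrix V V ℝ :=
  Matrix.of fun x y => if G.Adj x y then 1 else 0

/-- The adjacency matrix has norm at most `lam` on the functions of sum zero; for a regular graph:
all eigenvalues except (one copy of) the degree have absolute value at most `lam`. -/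
def SecondEigenvalueLe {V : Type} [Fintype V] (G : SimpleGraph V) (lam : ℝ) : Prop :=
  ∀ x : V → ℝ, ∑ v, x v = 0 → ∑ v, ((adjacency G).mulVec x v) ^ 2 ≤ lam ^ 2 * ∑ v, x v ^ 2

/-- Every eigenvalue of the adjacency matrix on the space of functions of sum zero has an eigenspace
of dimension at least `m` there. -/
def MultiplicitiesGe {V : Type} [Fintype V] (G : SimpleGraph V) (m : ℝ) : Prop :=
  ∀ (ν : ℝ) (E : Submodule ℝ (V → ℝ)),
    (∀ f, f ∈ E ↔ ∑ v, f v = 0 ∧ (adjacency G).mulVec f = ν • f) → E ≠ ⊥ →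
    m ≤ Module.finrank ℝ E

theorem dg_eq_ncard {V : Type} [Fintype V] (G : SimpleGraph V) (x : V) :
    dg G Finset.univ x = {y | G.Adj x y}.ncard := by
  classical
  unfold dg
  rw [← Set.ncard_coe_finset]
  congr 1
  ext y
  simp

theorem adjM_eq {V : Type} (G : SimpleGraph V) : adjM G = adjacency G := rfl

theorem row_sum {V : Type} [Fintype V] (G : SimpleGraph V) (x : V) :
    ∑ y, adjM G x y = dg G Finset.univ x := by
  classical
  unfold adjM dg
  simp only [Matrix.of_apply]
  rw [← Finset.sum_filter, Finset.sum_const, nsmul_eq_mul, mul_one]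

theorem adjM_symm {V : Type} (G : SimpleGraph V) (x y : V) : adjM G x y = adjM G y x := by
  classical
  unfold adjM
  simp only [Matrix.of_apply]
  by_cases h : G.Adj x y
  · rw [if_pos h, if_pos h.symm]
  · rw [if_neg h, if_neg (fun h' => h h'.symm)]

theorem adjM_sq {V : Type} (G : SimpleGraph V) (x y : V) : adjM G x y ^ 2 = adjM G x y := by
  classical
  unfold adjM
  simp only [Matrix.of_apply]
  by_cases h : G.Adj x y
  · rw [if_pos h, one_pow]
  · rw [if_neg h]
    norm_num

theorem sum_sq {V : Type} [Fintype V] (G : SimpleGraph V) (d : ℕ)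
    (hreg : ∀ v, dg G Finset.univ v = d) :
    ∑ x, ∑ y, adjM G x y ^ 2 = (Fintype.card V : ℝ) * d := by
  have h1 : ∀ x, ∑ y, adjM G x y ^ 2 = d := by
    intro x
    rw [Finset.sum_congr rfl (fun y _ => adjM_sq G x y), row_sum, hreg]
  rw [Finset.sum_congr rfl (fun x _ => h1 x), Finset.sum_const, Finset.card_univ, nsmul_eq_mul]

/-- large multiplicities give a small second eigenvalue -/
theorem spec_mult {V : Type} [Fintype V] (G : SimpleGraph V) (d : ℕ)
    (hreg : ∀ v, dg G Finset.univ v = d) (m : ℝ) (hm : 0 < m) (h : MultiplicitiesGe G m) :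
    Spec (adjM G) (Real.sqrt ((Fintype.card V : ℝ) * d / m)) := by
  classical
  have h1 := spec_of_mult (adjM G) (adjM_symm G) d (fun x => by rw [row_sum, hreg]) m hm
    (fun ν hν => h ν (eigW (adjM G) ν) (fun f => mem_eigW (adjM G) ν f) hν)
  rw [sum_sq G d hreg] at h1
  exact h1

/-- the adjacency matrix of a strongly regular graph -/
theorem srg_spec {V : Type} [Fintype V] [DecidableEq V] (G : SimpleGraph V)
    [DecidableRel G.Adj] (n k l μ : ℕ) (h : G.IsSRGWith n k l μ) (hμ : 0 < μ) (hμk : μ < k)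
    (h4 : 4 ≤ n) (hkn : k + 1 < n) :
    Spec (adjM G) (3 * (n : ℝ) ^ ((3 : ℝ) / 4)) := by
  have hcard : Fintype.card V = n := h.card
  have hne : Nonempty V := Fintype.card_pos_iff.1 (by omega)
  have hAe : adjM G = G.adjMatrix ℝ := by
    ext x y
    unfold adjM
    simp only [Matrix.of_apply, SimpleGraph.adjMatrix_apply]
    by_cases hxy : G.Adj x y
    · rw [if_pos hxy, if_pos hxy]
    · rw [if_neg hxy, if_neg hxy]
  have hrow : ∀ x, ∑ y, adjM G x y = k := by
    intro x
    rw [hAe]
    simp only [SimpleGraph.adjMatrix_apply]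
    rw [← Finset.sum_filter, Finset.sum_const, nsmul_eq_mul, mul_one]
    congr 1
    have h1 := h.regular x
    rw [← h1, ← SimpleGraph.card_neighborFinset_eq_degree]
    congr 1
    ext y
    simp
  have hAJ : adjM G * allOnes V = (k : ℝ) • allOnes V := by
    ext x y
    rw [Matrix.mul_apply, Matrix.smul_apply, allOnes_apply]
    simp only [allOnes_apply, mul_one, smul_eq_mul]
    exact hrow x
  have hJA : allOnes V * adjM G = (k : ℝ) • allOnes V := by
    ext x y
    rw [Matrix.mul_apply, Matrix.smul_apply, allOnes_apply]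
    simp only [allOnes_apply, one_mul, mul_one, smul_eq_mul]
    rw [← hrow y]
    apply Finset.sum_congr rfl
    intro z _
    exact adjM_symm G z y
  set κ : ℝ := (k : ℝ) - μ with hκ
  set δ : ℝ := (l : ℝ) - μ with hδ
  have hA2 : adjM G * adjM G = κ • (1 : Matrix V V ℝ) + δ • adjM G + (μ : ℝ) • allOnes V := by
    have h1 := h.matrix_eq (α := ℝ)
    rw [pow_two, ← hAe] at h1
    simp only [← Nat.cast_smul_eq_nsmul ℝ] at h1
    rw [h1]
    ext x y
    simp only [Matrix.add_apply, Matrix.smul_apply, allOnes_apply, SimpleGraph.adjMatrix_apply,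
      SimpleGraph.compl_adj, smul_eq_mul, Matrix.one_apply]
    have hxy : adjM G x y = if G.Adj x y then 1 else 0 := by
      rw [hAe, SimpleGraph.adjMatrix_apply]
    rw [hxy, hκ, hδ]
    by_cases hxe : x = y
    · subst hxe
      simp
    · by_cases ha : G.Adj x y
      · simp [hxe, ha]
      · simp [hxe, ha]
  have h01 : ∀ x y, x ≠ y → adjM G x y = 0 ∨ adjM G x y = 1 := by
    intro x y _
    rw [hAe, SimpleGraph.adjMatrix_apply]
    by_cases ha : G.Adj x y
    · right
      rw [if_pos ha]
    · left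
      rw [if_neg ha]
  have hdiag : ∀ x, adjM G x x = 0 := by
    intro x
    rw [hAe, SimpleGraph.adjMatrix_apply, if_neg (G.loopless.irrefl x)]
  have hκ1 : 1 ≤ κ := by
    rw [hκ]
    have h1 : (μ : ℝ) + 1 ≤ k := by exact_mod_cast hμk
    linarith
  have hμ0 : (0 : ℝ) < μ := by exact_mod_cast hμ
  have hδ1 : -(μ : ℝ) ≤ δ := by
    rw [hδ]
    have : (0 : ℝ) ≤ l := Nat.cast_nonneg l
    linarith
  have hn4 : (4 : ℝ) ≤ Fintype.card V := by
    rw [hcard]
    exact_mod_cast h4
  have hkn' : (k : ℝ) + 1 < Fintype.card V := by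
    rw [hcard]
    exact_mod_cast hkn
  have hδ2 := delta_bound (adjM G) h01 hdiag (k : ℝ) κ δ (μ : ℝ) (by rw [hκ]; ring) hκ1 hμ0 hδ1
    hA2 hAJ hJA hn4 hkn'
  rw [hcard] at hδ2 hn4 hkn'
  have hn0 : (0 : ℝ) < n := by linarith
  apply spec_of (adjM G) (adjM_symm G) κ δ (μ : ℝ) _ (by linarith) hA2
  have hs1 : 1 ≤ Real.sqrt n := by
    rw [Real.one_le_sqrt]
    linarith
  have hp : ((n : ℝ) ^ ((3 : ℝ) / 4)) ^ 2 = n * Real.sqrt n := by
    rw [← Real.rpow_natCast, ← Real.rpow_mul hn0.le, Real.sqrt_eq_rpow,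
      ← Real.rpow_one_add' hn0.le (by norm_num)]
    norm_num
  rw [mul_pow, hp]
  have hkn2 : (k : ℝ) ≤ n := by linarith
  have h5 : κ ≤ k := by
    rw [hκ]
    linarith
  have h6 : Real.sqrt n * k ≤ Real.sqrt n * n := mul_le_mul_of_nonneg_left hkn2 (by linarith)
  have h7 : (k : ℝ) ≤ Real.sqrt n * k := by
    have : (0 : ℝ) ≤ k := Nat.cast_nonneg k
    nlinarith
  nlinarith

/-- representations on the eigenspaces of a Cayley graph -/
theorem cayley_mult {Γ : Type} [Group Γ] [Fintype Γ] (S : Set Γ) (m : ℝ)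
    (hrep : ∀ (W : Type) [AddCommGroup W] [Module ℝ W] [FiniteDimensional ℝ W]
      (ρ : Representation ℝ Γ W), (Module.finrank ℝ W : ℝ) < m → ∀ g : Γ, ρ g = 1) :
    MultiplicitiesGe (SimpleGraph.mulCayley S) m := by
  classical
  intro ν E hE hne
  by_contra hlt
  push Not at hlt
  have hinv : ∀ (g : Γ) (f : Γ → ℝ), f ∈ E → (fun x => f (g⁻¹ * x)) ∈ E := by
    intro g f hf
    rw [hE] at hf ⊢
    obtain ⟨hf1, hf2⟩ := hf
    refine ⟨?_, ?_⟩
    · rw [← hf1]
      exact Fintype.sum_equiv (Equiv.mulLeft g⁻¹) _ _ (fun x => rfl)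
    · ext x
      have h1 := congrFun hf2 (g⁻¹ * x)
      simp only [Pi.smul_apply, smul_eq_mul] at h1 ⊢
      rw [← h1]
      unfold Matrix.mulVec dotProduct
      apply Fintype.sum_equiv (Equiv.mulLeft g⁻¹)
      intro y
      show adjacency (SimpleGraph.mulCayley S) x y * f (g⁻¹ * y) =
        adjacency (SimpleGraph.mulCayley S) (g⁻¹ * x) (g⁻¹ * y) * f (g⁻¹ * y)
      congr 1
      unfold adjacency
      simp only [Matrix.of_apply]
      rw [SimpleGraph.mulCayley_adj_mul_iff_right]
  let ρ : Representation ℝ Γ E :=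
    { toFun := fun g =>
        { toFun := fun f => ⟨fun x => f.1 (g⁻¹ * x), hinv g f.1 f.2⟩
          map_add' := fun f f' => rfl
          map_smul' := fun c f => rfl }
      map_one' := by
        apply LinearMap.ext
        intro f
        apply Subtype.ext
        ext x
        show f.1 (1⁻¹ * x) = f.1 x
        rw [inv_one, one_mul]
      map_mul' := by
        intro g g'
        apply LinearMap.ext
        intro f
        apply Subtype.ext
        ext x
        show f.1 ((g * g')⁻¹ * x) = f.1 (g'⁻¹ * (g⁻¹ * x))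
        rw [mul_inv_rev, mul_assoc] }
  have htriv := hrep E ρ hlt
  apply hne
  rw [Submodule.eq_bot_iff]
  intro f hf
  have hconst : ∀ x, f x = f 1 := by
    intro x
    have h1 := htriv x
    have h2 := congrArg (fun T : E →ₗ[ℝ] E => (T ⟨f, hf⟩ : Γ → ℝ) x) h1
    have h3 : f (x⁻¹ * x) = f x := h2
    rw [inv_mul_cancel] at h3
    exact h3.symm
  have hsum := ((hE f).1 hf).1
  rw [Finset.sum_congr rfl (fun x _ => hconst x), Finset.sum_const, Finset.card_univ,
    nsmul_eq_mul] at hsum
  have hc0 : (Fintype.card Γ : ℝ) ≠ 0 := by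
    exact_mod_cast Fintype.card_ne_zero
  have h1 : f 1 = 0 := by
    rcases mul_eq_zero.1 hsum with h | h
    · exact absurd h hc0
    · exact h
  ext x
  rw [hconst x, h1]
  rfl

/-- `√(n d / n ^ c) ≤ n ^ (1 - c / 2)` -/
theorem sqrt_bound (n d c : ℝ) (hn : 1 ≤ n) (hdn : d ≤ n) :
    Real.sqrt (n * d / n ^ c) ≤ n ^ (1 - c / 2) := by
  have hn0 : 0 < n := by linarith
  apply Real.sqrt_le_iff.2
  refine ⟨(Real.rpow_pos_of_pos hn0 _).le, ?_⟩
  rw [← Real.rpow_natCast, ← Real.rpow_mul hn0.le]
  have h1 : (1 - c / 2) * ((2 : ℕ) : ℝ) = 1 + 1 - c := by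
    push_cast
    ring
  rw [h1, Real.rpow_sub hn0, Real.rpow_add hn0, Real.rpow_one]
  apply div_le_div_of_nonneg_right _ (Real.rpow_pos_of_pos hn0 _).le
  exact mul_le_mul_of_nonneg_left hdn hn0.le

/-- Let `c > 0` and let `K` be any number. There are `ε > 0` and `n₀` such that Hadwiger's conjecture
holds, even with a factor `K`, for every graph with `n ≥ n₀` vertices which is regular of degree `d`,
`n ^ (1 - ε) ≤ d ≤ n - n ^ (1 - ε)`, and
(1) all of whose eigenvalues except the degree are at most `n ^ (1 - c)` in absolute value; or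
(2) all of whose eigenvalues (on the space of functions of sum zero) have multiplicity at least
`n ^ c`; or
(3) which is strongly regular with parameters `(n, d, l, μ)`, `0 < μ < d`; or
(4) which is a Cayley graph of a group that acts trivially on all real vector spaces of dimension
less than `n ^ c`. -/
theorem result (c : ℝ) (hc : 0 < c) (K : ℕ) : ∃ ε : ℝ, 0 < ε ∧ ∃ n₀ : ℕ,
    (∀ (V : Type) [Fintype V] (G : SimpleGraph V) (d : ℕ), n₀ ≤ Fintype.card V →
      IsRegular G d → (Fintype.card V : ℝ) ^ (1 - ε) ≤ d →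
      (d : ℝ) ≤ Fintype.card V - (Fintype.card V : ℝ) ^ (1 - ε) →
      (SecondEigenvalueLe G ((Fintype.card V : ℝ) ^ (1 - c)) → Hadwiger K G) ∧
      (MultiplicitiesGe G ((Fintype.card V : ℝ) ^ c) → Hadwiger K G)) ∧
    (∀ (V : Type) [Fintype V] [DecidableEq V] (G : SimpleGraph V) [DecidableRel G.Adj]
      (n d l μ : ℕ), G.IsSRGWith n d l μ → 0 < μ → μ < d → n₀ ≤ n →
      (n : ℝ) ^ (1 - ε) ≤ d → (d : ℝ) ≤ n - (n : ℝ) ^ (1 - ε) → Hadwiger K G) ∧
    (∀ (Γ : Type) [Group Γ] [Fintype Γ], n₀ ≤ Fintype.card Γ →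
      (∀ (W : Type) [AddCommGroup W] [Module ℝ W] [FiniteDimensional ℝ W]
        (ρ : Representation ℝ Γ W),
        (Module.finrank ℝ W : ℝ) < (Fintype.card Γ : ℝ) ^ c → ∀ g : Γ, ρ g = 1) →
      ∀ S : Set Γ, (1 : Γ) ∉ S → (∀ g ∈ S, g⁻¹ ∈ S) →
      (Fintype.card Γ : ℝ) ^ (1 - ε) ≤ S.ncard →
      (S.ncard : ℝ) ≤ Fintype.card Γ - (Fintype.card Γ : ℝ) ^ (1 - ε) →
      Hadwiger K (SimpleGraph.mulCayley S)) := by
  classical
  set c0 : ℝ := min (c / 2) (1 / 5) with hc0
  have hc0p : 0 < c0 := by positivity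
  have hc01 : c0 ≤ 1 := (min_le_right _ _).trans (by norm_num)
  have hc0c : c0 ≤ c / 2 := min_le_left _ _
  obtain ⟨ε', hε', n0', h'⟩ := pseudo_main c0 hc0p hc01 K
  set ε : ℝ := min ε' (1 / 2) with hεd
  have hε : 0 < ε := by positivity
  have hεε' : ε ≤ ε' := min_le_left _ _
  have hε1 : ε ≤ 1 / 2 := min_le_right _ _
  set n0 : ℕ := max n0' 1 with hn0d
  have h : ∀ (V : Type) [Fintype V] (G : SimpleGraph V) (d : ℕ), n0 ≤ Fintype.card V →
      (∀ v, dg G Finset.univ v = d) → (Fintype.card V : ℝ) ^ (1 - ε) ≤ d →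
      (d : ℝ) ≤ Fintype.card V - (Fintype.card V : ℝ) ^ (1 - ε) →
      ∀ lam : ℝ, 0 ≤ lam → lam ≤ (Fintype.card V : ℝ) ^ (1 - c0) → Spec (adjM G) lam →
      Hadwiger K G := by
    intro V _ G d hn hreg hd1 hd2 lam hlam0 hlam hsp k hk
    have hn' : n0' ≤ Fintype.card V := (le_max_left _ _).trans hn
    have hn1 : (1 : ℝ) ≤ Fintype.card V := by
      have : 1 ≤ Fintype.card V := (le_max_right _ _).trans hn
      exact_mod_cast this
    have hmono : (Fintype.card V : ℝ) ^ (1 - ε') ≤ (Fintype.card V : ℝ) ^ (1 - ε) :=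
      Real.rpow_le_rpow_of_exponent_le hn1 (by linarith)
    exact h' V G d hn' hreg (by linarith) (by linarith) lam hlam0 hlam hsp k hk
  -- a bound with which `3 n ^ (3 / 4) ≤ n ^ (4 / 5)`
  obtain ⟨n1, hn1⟩ := large_n (1 / 20) (by norm_num) 0 3
  -- multiplicities
  have hmult : ∀ (V : Type) [Fintype V] (G : SimpleGraph V) (d : ℕ),
      max n0 n1 ≤ Fintype.card V → IsRegular G d →
      (Fintype.card V : ℝ) ^ (1 - ε) ≤ d →
      (d : ℝ) ≤ Fintype.card V - (Fintype.card V : ℝ) ^ (1 - ε) →
      MultiplicitiesGe G ((Fintype.card V : ℝ) ^ c) → Hadwiger K G := by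
    intro V _ G d hn hreg hd1 hd2 hG
    have hn0 : n0 ≤ Fintype.card V := (le_max_left _ _).trans hn
    have hn4 := (hn1 _ ((le_max_right _ _).trans hn)).1
    have hreg' : ∀ v, dg G Finset.univ v = d := fun v => by rw [dg_eq_ncard]; exact hreg v
    have hnpos : (0 : ℝ) < Fintype.card V := by linarith
    have hdn : (d : ℝ) ≤ Fintype.card V := by
      have := Real.rpow_pos_of_pos hnpos (1 - ε)
      linarith
    have hlam := sqrt_bound (Fintype.card V : ℝ) d c (by linarith) hdn
    intro k hk
    apply h V G d hn0 hreg' hd1 hd2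
      (Real.sqrt ((Fintype.card V : ℝ) * d / (Fintype.card V : ℝ) ^ c)) (Real.sqrt_nonneg _) ?_
      (spec_mult G d hreg' _ (Real.rpow_pos_of_pos hnpos c) hG) k hk
    exact hlam.trans (Real.rpow_le_rpow_of_exponent_le (by linarith) (by linarith))
  refine ⟨ε, hε, max n0 n1, ?_, ?_, ?_⟩
  · intro V _ G d hn hreg hd1 hd2
    refine ⟨?_, fun hG => hmult V G d hn hreg hd1 hd2 hG⟩
    intro hG k hk
    have hn0 : n0 ≤ Fintype.card V := (le_max_left _ _).trans hn
    have hn4 := (hn1 _ ((le_max_right _ _).trans hn)).1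
    have hreg' : ∀ v, dg G Finset.univ v = d := fun v => by rw [dg_eq_ncard]; exact hreg v
    have hnpos : (0 : ℝ) < Fintype.card V := by linarith
    exact h V G d hn0 hreg' hd1 hd2 ((Fintype.card V : ℝ) ^ (1 - c))
      (Real.rpow_pos_of_pos hnpos _).le
      (Real.rpow_le_rpow_of_exponent_le (by linarith) (by linarith)) hG k hk
  · intro V _ _ G _ n d l μ hsrg hμ hμd hn hd1 hd2 k hk
    have hcard : Fintype.card V = n := hsrg.card
    have hn0 : n0 ≤ n := (le_max_left _ _).trans hn
    obtain ⟨hn4, _, _, hn20, _⟩ := hn1 _ ((le_max_right _ _).trans hn)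
    have hnpos : (0 : ℝ) < n := by linarith
    have hreg' : ∀ v, dg G Finset.univ v = d := by
      intro v
      have h1 := hsrg.regular v
      rw [dg_eq_ncard, ← h1, ← SimpleGraph.card_neighborFinset_eq_degree, ← Set.ncard_coe_finset]
      congr 1
      ext y
      simp
    have hpos := Real.rpow_pos_of_pos hnpos (1 - ε)
    have h4n : 4 ≤ n := by exact_mod_cast hn4
    -- `d + 1 < n`
    have hdn : d + 1 < n := by
      have hlt : (d : ℝ) < n := by linarith
      have hlt' : d < n := by exact_mod_cast hlt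
      rcases Nat.lt_or_ge (d + 1) n with h1 | h1
      · exact h1
      · exfalso
        have hde : d = n - 1 := by omega
        have hp1 : (n : ℝ) ^ (1 - ε) ≤ 1 := by
          have h2 : (d : ℝ) = n - 1 := by
            rw [hde, Nat.cast_sub (by omega)]
            push_cast
            ring
          linarith
        -- then `G` is complete and `μ` is arbitrary; but `n ^ (1 - ε) ≤ 1` forces `1 ≤ ε`
        have hp2 : (1 : ℝ) < (n : ℝ) ^ (1 - ε) :=
          Real.one_lt_rpow (by linarith) (by linarith)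
        linarith
    have hspec := srg_spec G n d l μ hsrg hμ hμd h4n hdn
    apply h V G d (by rw [hcard]; exact hn0) hreg' (by rw [hcard]; exact hd1)
      (by rw [hcard]; exact hd2) (3 * (n : ℝ) ^ ((3 : ℝ) / 4)) (by positivity) ?_ hspec k hk
    rw [hcard]
    have h5 : 3 * (n : ℝ) ^ ((3 : ℝ) / 4) ≤ (n : ℝ) ^ ((4 : ℝ) / 5) := by
      have h6 : (n : ℝ) ^ ((4 : ℝ) / 5) = (n : ℝ) ^ ((1 : ℝ) / 20) * (n : ℝ) ^ ((3 : ℝ) / 4) := by
        rw [← Real.rpow_add hnpos]
        norm_num
      rw [h6]
      exact mul_le_mul_of_nonneg_right hn20 (Real.rpow_pos_of_pos hnpos _).le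
    refine h5.trans (Real.rpow_le_rpow_of_exponent_le (by linarith) ?_)
    have := min_le_right (c / 2) ((1 : ℝ) / 5)
    linarith
  · intro Γ _ _ hn hrep S hS1 hSinv hd1 hd2
    have hreg : IsRegular (SimpleGraph.mulCayley S) S.ncard := by
      intro x
      have himg : {y | (SimpleGraph.mulCayley S).Adj x y} = (fun s => x * s) '' S := by
        ext y
        rw [Set.mem_setOf_eq, SimpleGraph.mulCayley_adj']
        constructor
        · rintro ⟨_, g, hg, h1 | h1⟩
          · exact ⟨g, hg, h1⟩
          · refine ⟨g⁻¹, hSinv g hg, ?_⟩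
            show x * g⁻¹ = y
            rw [h1]
            group
        · rintro ⟨s, hs, rfl⟩
          refine ⟨?_, s, hs, Or.inl rfl⟩
          intro h1
          have h2 : s = 1 := by
            have h3 : x * s = x * 1 := by rw [mul_one]; exact h1.symm
            exact mul_left_cancel h3
          rw [h2] at hs
          exact hS1 hs
      rw [himg, Set.ncard_image_of_injective _ (mul_right_injective x)]
    exact hmult Γ (SimpleGraph.mulCayley S) S.ncard hn hreg hd1 hd2 (cayley_mult S _ hrep)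

end Pool.Agent.Results.MP_b47bfb_co.PseudoRandomGraphs
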